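import Pool.Agent.Y387.RU.Field

/-!
# Transitive nilpotent symmetry groups
-/

set_option autoImplicit false

open Finset

namespace Pool.Agent.Y387.RU

open Pool.Agent.Y387.SF

/-- a nontrivial normal subgroup of a nilpotent group contains a nontrivial central element -/
theorem exists_central {G : Type*} [Group G] [hG : Group.IsNilpotent G] (N : Subgroup G)
    [hN : N.Normal] (hne : N ≠ ⊥) : ∃ g ∈ N, g ≠ 1 ∧ ∀ h, g * h = h * g := by
  classical
  obtain ⟨n, hn⟩ := Group.IsNilpotent.nilpotent G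
  have hex : ∃ n, ∃ g ∈ N, g ≠ 1 ∧ g ∈ Subgroup.upperCentralSeries G n := by
    obtain ⟨⟨g, hg⟩, hg1⟩ := (Subgroup.ne_bot_iff_exists_ne_one).1 hne
    refine ⟨n, g, hg, fun h => hg1 (Subtype.ext h), ?_⟩
    rw [hn]
    exact Subgroup.mem_top g
  obtain ⟨g, hgN, hg1, hgm⟩ := Nat.find_spec hex
  have hm0 : Nat.find hex ≠ 0 := by
    intro h0
    rw [h0, Subgroup.upperCentralSeries_zero] at hgm
    exact hg1 (Subgroup.mem_bot.1 hgm)
  obtain ⟨k, hk⟩ := Nat.exists_eq_succ_of_ne_zero hm0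
  have hmin := Nat.find_min hex (m := k) (by omega)
  push Not at hmin
  refine ⟨g, hgN, hg1, fun h => ?_⟩
  rw [hk, Nat.succ_eq_add_one, Subgroup.mem_upperCentralSeries_succ_iff] at hgm
  have h2 : g * h * g⁻¹ * h⁻¹ ∈ Subgroup.upperCentralSeries G k := hgm h
  have h3 : g * h * g⁻¹ * h⁻¹ ∈ N := by
    rw [mul_assoc, mul_assoc, ← mul_assoc h]
    exact mul_mem hgN (hN.conj_mem _ (inv_mem hgN) h)
  by_contra hcon
  refine hmin _ h3 (fun h5 => hcon ?_) h2
  have h6 : g * h * g⁻¹ = h := by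
    rw [mul_inv_eq_one] at h5
    exact h5
  rw [mul_inv_eq_iff_eq_mul] at h6
  exact h6

variable {V : Type*} [NormedAddCommGroup V] [InnerProductSpace ℂ V] [FiniteDimensional ℂ V]
variable {ι : Type*} [Fintype ι] {d : ℕ} {x : ι → V}

omit [FiniteDimensional ℂ V] [Fintype ι] in
theorem ind_pow {A : V ≃ₗᵢ[ℂ] V} {α : Equiv.Perm ι} (hA : Ind x A α) (n : ℕ) :
    Ind x (A ^ n) (α ^ n) := by
  induction n with
  | zero => simpa using Ind.one
  | succ n ih =>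
    rw [pow_succ, pow_succ]
    exact ih.mul hA

theorem zeta_of_central (h : IsEtf d x) (hd : 1 ≤ d) (hcard : Fintype.card ι = d ^ 2)
    (hV : Module.finrank ℂ V = d) (i₀ : ι) {n : ℕ} {α : Equiv.Perm ι} {A : V ≃ₗᵢ[ℂ] V}
    (hA : Ind x A α) (hα : α ≠ 1) (hαn : α ^ n = 1) (T : Set (Equiv.Perm ι))
    (hT : ∀ g ∈ T, ∃ B : V ≃ₗᵢ[ℂ] V, Ind x B g) (htr : ∀ i j, ∃ g ∈ T, g i = j)
    (hcomm : ∀ g ∈ T, α * g = g * α) :
    ∃ (B : V ≃ₗᵢ[ℂ] V) (g : Equiv.Perm ι) (ζ : ℂ), Ind x B g ∧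
      (∀ v, A (B v) = ζ • B (A v)) ∧ ζ ≠ 1 ∧ ζ ^ n = 1 := by
  -- some symmetry does not commute with `A`
  have hex : ∃ g ∈ T, ∃ B : V ≃ₗᵢ[ℂ] V, Ind x B g ∧ ∃ v, A (B v) ≠ B (A v) := by
    by_contra hcon
    push Not at hcon
    have h1 : ∃ c : ℂ, ∀ v, (A.toLinearEquiv : V →ₗ[ℂ] V) v = c • v := by
      apply commutant h hd hcard hV _ i₀
      intro k
      obtain ⟨g, hg, hgk⟩ := htr i₀ k
      obtain ⟨B, hB⟩ := hT g hg
      obtain ⟨c, hc⟩ := hB i₀
      refine ⟨B, c, ?_, fun v => hcon g hg B hB v⟩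
      rw [hc, hgk]
    obtain ⟨c, hc⟩ := h1
    apply hα
    ext k
    obtain ⟨c', hc'⟩ := hA k
    have h2 : A (x k) = c • x k := hc (x k)
    have hc'0 : c' ≠ 0 := by
      rintro rfl
      have := ind_norm h hc'
      simp at this
    have h3 : x (α k) = (c'⁻¹ * c) • x k := by
      rw [mul_smul, ← h2, hc', smul_smul, inv_mul_cancel₀ hc'0, one_smul]
    rw [Equiv.Perm.one_apply]
    exact h.line hd h3
  obtain ⟨g, hg, B, hB, v₀, hv₀⟩ := hex
  have hcg := hcomm g hg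
  -- the commutator is scalar
  have hInd : Ind x ((A * B) * (B * A)⁻¹) 1 := by
    have h1 := (hA.mul hB).mul ((hB.mul hA).inv h)
    rwa [hcg, mul_inv_cancel] at h1
  obtain ⟨ζ, _, hζ⟩ := fix_all h hd hcard hV hInd
  have hAB : ∀ v, A (B v) = ζ • B (A v) := by
    intro v
    have h1 := hζ ((B * A) v)
    change (A * B) ((B * A)⁻¹ ((B * A) v)) = ζ • B (A v) at h1
    have h2 : (B * A)⁻¹ ((B * A) v) = v := (B * A).symm_apply_apply v
    rw [h2] at h1
    exact h1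
  refine ⟨B, g, ζ, hB, hAB, ?_, ?_⟩
  · rintro rfl
    apply hv₀
    rw [hAB, one_smul]
  · have h1 : ∀ m : ℕ, ∀ v, (A ^ m) (B v) = ζ ^ m • B ((A ^ m) v) := by
      intro m
      induction m with
      | zero => intro v; simp
      | succ m ih =>
        intro v
        rw [pow_succ]
        change (A ^ m) (A (B v)) = ζ ^ (m + 1) • B ((A ^ m) (A v))
        rw [hAB, map_smul, ih, smul_smul, pow_succ, mul_comm]
    have hAn : Ind x (A ^ n) 1 := by
      rw [← hαn]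
      exact ind_pow hA n
    obtain ⟨c, hc1, hc⟩ := fix_all h hd hcard hV hAn
    have h2 := h1 n (x i₀)
    rw [hc, hc, map_smul, smul_smul] at h2
    have h3 : (c - ζ ^ n * c) • B (x i₀) = 0 := by
      rw [sub_smul, ← h2, sub_self]
    have hB0 : B (x i₀) ≠ 0 := by
      intro h0
      have := congrArg norm h0
      rw [B.norm_map, h.nrm, norm_zero] at this
      exact one_ne_zero this
    have hc0 : c ≠ 0 := by
      rintro rfl
      simp at hc1
    rcases smul_eq_zero.1 h3 with h4 | h4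
    · have h5 : c * (1 - ζ ^ n) = 0 := by linear_combination h4
      rcases mul_eq_zero.1 h5 with h6 | h6
      · exact absurd h6 hc0
      · exact (sub_eq_zero.1 h6).symm
    · exact absurd h4 hB0

theorem prim_of {ℓ k : ℕ} (hp : ℓ.Prime) {ζ : ℂ} (h1 : ζ ≠ 1) (hk : ζ ^ (ℓ ^ k) = 1) :
    ∃ m : ℕ, IsPrimitiveRoot (ζ ^ m) ℓ := by
  have h2 := orderOf_dvd_of_pow_eq_one hk
  obtain ⟨s, hs, hs'⟩ := (Nat.dvd_prime_pow hp).1 h2
  have hs0 : s ≠ 0 := by
    rintro rfl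
    rw [pow_zero, orderOf_eq_one_iff] at hs'
    exact h1 hs'
  obtain ⟨t, rfl⟩ := Nat.exists_eq_succ_of_ne_zero hs0
  refine ⟨ℓ ^ t, ?_⟩
  have h3 := IsPrimitiveRoot.orderOf ζ
  rw [hs'] at h3
  exact h3.pow (pow_pos hp.pos _) (by rw [Nat.succ_eq_add_one, pow_succ])

theorem card_dvd {G : Type*} [Group G] [Finite G] [MulAction G ι]
    (htr : MulAction.IsPretransitive G ι) (i : ι) : Fintype.card ι ∣ Nat.card G := by
  have h2 := MulAction.index_stabilizer G i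
  rw [MulAction.orbit_eq_univ, Set.ncard_univ, Nat.card_eq_fintype_card] at h2
  rw [← h2]
  exact Subgroup.index_dvd_card _

/-- roots of unity in the field of the triple products -/
theorem root_mem (h : IsEtf d x) (hd : 1 ≤ d) (hcard : Fintype.card ι = d ^ 2)
    (hV : Module.finrank ℂ V = d) {K : Subfield ℂ} (hK : TripleIn x K)
    (G : Subgroup (Equiv.Perm ι)) (hG : ∀ π ∈ G, ∃ U : V ≃ₗᵢ[ℂ] V, Ind x U π)
    (htr : ∀ i j, ∃ π ∈ G, π i = j) (hnil : Group.IsNilpotent G ∨ IsPrimePow d)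
    {ℓ : ℕ} (hp : ℓ.Prime) (hℓ : ℓ ∣ d) : ∃ ξ ∈ K, IsPrimitiveRoot ξ ℓ := by
  classical
  have : Fact ℓ.Prime := ⟨hp⟩
  have hd2 : 2 ≤ d := hp.two_le.trans (Nat.le_of_dvd (by omega) hℓ)
  have hone : 1 < Fintype.card ι := by
    rw [hcard]
    exact Nat.one_lt_pow (by norm_num) hd2
  obtain ⟨i₀, j₀, hij₀⟩ := Fintype.one_lt_card_iff.1 hone
  have : Nonempty ι := ⟨i₀⟩
  have hpre : MulAction.IsPretransitive G ι := by
    constructor
    intro i j
    obtain ⟨π, hπ, hij⟩ := htr i j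
    exact ⟨⟨π, hπ⟩, hij⟩
  -- it suffices to find a central element of a transitive set
  have main : ∀ (α : Equiv.Perm ι) (k : ℕ), α ∈ G → α ≠ 1 → α ^ (ℓ ^ k) = 1 →
      ∀ T : Set (Equiv.Perm ι), (∀ g ∈ T, g ∈ G) → (∀ i j, ∃ g ∈ T, g i = j) →
      (∀ g ∈ T, α * g = g * α) → ∃ ξ ∈ K, IsPrimitiveRoot ξ ℓ := by
    intro α k hαG hα1 hαk T hTG hTtr hTc
    obtain ⟨A, hA⟩ := hG α hαG
    obtain ⟨B, g, ζ, hB, hAB, hζ1, hζk⟩ := zeta_of_central h hd hcard hV i₀ hA hα1 hαk T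
      (fun g hg => hG g (hTG g hg)) hTtr hTc
    obtain ⟨m, hm⟩ := prim_of hp hζ1 hζk
    exact ⟨ζ ^ m, pow_mem (comm_mem h hd hcard hV hK hA hB hAB) m, hm⟩
  rcases hnil with hnil | hpp
  · obtain ⟨P⟩ : Nonempty (Sylow ℓ G) := inferInstance
    have : Group.IsNilpotent G := hnil
    have hPn : (P : Subgroup G).Normal := inferInstance
    have hdvd : ℓ ∣ Nat.card G := by
      have h1 := card_dvd hpre i₀
      rw [hcard] at h1
      exact ((hℓ.trans (dvd_pow_self d (by norm_num))).trans h1)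
    have hPne : (P : Subgroup G) ≠ ⊥ := P.ne_bot_of_dvd_card hdvd
    obtain ⟨g, hgP, hg1, hgc⟩ := exists_central (P : Subgroup G) hPne
    obtain ⟨k, hk⟩ := P.isPGroup' ⟨g, hgP⟩
    refine main (g : Equiv.Perm ι) k g.2 (fun h0 => hg1 (Subtype.ext h0)) ?_
      (G : Set (Equiv.Perm ι)) (fun g hg => hg) htr ?_
    · have h1 := congrArg (fun t : P => ((t : G) : Equiv.Perm ι)) hk
      exact h1
    · intro g' hg'
      have h1 := hgc ⟨g', hg'⟩
      exact congrArg (fun t : G => (t : Equiv.Perm ι)) h1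
  · obtain ⟨q, n, hq, hn, hqn⟩ := hpp
    have hq' : q.Prime := Nat.prime_iff.2 hq
    have hℓq : ℓ = q := by
      have h1 : ℓ ∣ q ^ n := by rw [hqn]; exact hℓ
      exact (Nat.prime_dvd_prime_iff_eq hp hq').1 (hp.dvd_of_dvd_pow h1)
    subst hℓq
    obtain ⟨P⟩ : Nonempty (Sylow ℓ G) := inferInstance
    have hP := sylow_transitive hpre ℓ (n * 2)
      (by rw [Nat.card_eq_fintype_card, hcard, ← hqn, ← pow_mul]) P
    have hnt : Nontrivial P := by
      obtain ⟨g, hg, hgij⟩ := hP i₀ j₀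
      refine ⟨⟨⟨g, hg⟩, 1, ?_⟩⟩
      intro h0
      have h1 : g = 1 := congrArg Subtype.val h0
      rw [h1, one_smul] at hgij
      exact hij₀ hgij
    have hcn := P.isPGroup'.center_nontrivial
    obtain ⟨z, hz⟩ := exists_ne (1 : Subgroup.center P)
    obtain ⟨k, hk⟩ := P.isPGroup' (z : P)
    refine main (((z : P) : G) : Equiv.Perm ι) k ((z : P) : G).2 ?_ ?_
      {g | ∃ hg : g ∈ G, (⟨g, hg⟩ : G) ∈ (P : Subgroup G)} (fun g hg => hg.1) ?_ ?_
    · intro h0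
      apply hz
      exact Subtype.ext (Subtype.ext (Subtype.ext h0))
    · exact congrArg (fun t : P => ((t : G) : Equiv.Perm ι)) hk
    · intro i j
      obtain ⟨g, hg, hij⟩ := hP i j
      exact ⟨(g : Equiv.Perm ι), ⟨g.2, hg⟩, hij⟩
    · rintro g ⟨hgG, hgP⟩
      have h1 := Subgroup.mem_center_iff.1 z.2 ⟨⟨g, hgG⟩, hgP⟩
      exact (congrArg (fun t : P => ((t : G) : Equiv.Perm ι)) h1).symm

/-- a primitive root of unity of order the radical -/
theorem rad_mem {K : Subfield ℂ} (s : Finset ℕ) (hs : ∀ ℓ ∈ s, ℓ.Prime)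
    (hK : ∀ ℓ ∈ s, ∃ ξ ∈ K, IsPrimitiveRoot ξ ℓ) :
    ∃ ξ ∈ K, IsPrimitiveRoot ξ (∏ ℓ ∈ s, ℓ) := by
  classical
  induction s using Finset.induction_on with
  | empty => exact ⟨1, one_mem K, by simp⟩
  | insert a s ha ih =>
    obtain ⟨ξ, hξ, hξp⟩ := ih (fun ℓ hℓ => hs ℓ (mem_insert_of_mem hℓ))
      (fun ℓ hℓ => hK ℓ (mem_insert_of_mem hℓ))
    obtain ⟨η, hη, hηp⟩ := hK a (mem_insert_self _ _)
    have hcop : Nat.Coprime a (∏ ℓ ∈ s, ℓ) := by
      apply Nat.Coprime.prod_right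
      intro ℓ hℓ
      rw [Nat.coprime_primes (hs a (mem_insert_self _ _)) (hs ℓ (mem_insert_of_mem hℓ))]
      rintro rfl
      exact ha hℓ
    refine ⟨η * ξ, mul_mem hη hξ, ?_⟩
    rw [prod_insert ha]
    have h1 := (Commute.all η ξ).orderOf_mul_eq_mul_orderOf_of_coprime
      (by rw [← hηp.eq_orderOf, ← hξp.eq_orderOf]; exact hcop)
    rw [← hηp.eq_orderOf, ← hξp.eq_orderOf] at h1
    rw [← h1]
    exact IsPrimitiveRoot.orderOf _

/-- the degree -/
theorem totient_dvd {K : Subfield ℂ} {n : ℕ} (hn : 0 < n) {ξ : ℂ} (hξ : ξ ∈ K)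
    (hp : IsPrimitiveRoot ξ n) : n.totient ∣ Module.finrank ℚ K := by
  have h1 : IsPrimitiveRoot (⟨ξ, hξ⟩ : K) n := by
    refine IsPrimitiveRoot.of_map_of_injective (f := K.subtype) ?_ K.subtype.injective
    exact hp
  by_cases hfd : FiniteDimensional ℚ K
  · have h2 := minpoly.degree_dvd (K := ℚ) (L := K) (x := ⟨ξ, hξ⟩) (IsIntegral.of_finite ℚ _)
    rwa [← Polynomial.cyclotomic_eq_minpoly_rat h1 hn, Polynomial.natDegree_cyclotomic] at h2
  · rw [Module.finrank_of_not_finite hfd]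
    exact dvd_zero _

end Pool.Agent.Y387.RU
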