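import Pool.Agent.Y387.SF.Syl

/-!
# The triple product field contains the commutator scalars of the symmetries
-/

set_option autoImplicit false

open Finset

namespace Pool.Agent.Y387.RU

open Pool.Agent.Y387.SF

variable {V : Type*} [NormedAddCommGroup V] [InnerProductSpace ℂ V]
variable {ι : Type*} {d : ℕ} {x : ι → V}

/-- all triple products lie in `K` -/
def TripleIn (x : ι → V) (K : Subfield ℂ) : Prop :=
  ∀ i j k, inner ℂ (x i) (x j) * inner ℂ (x j) (x k) * inner ℂ (x k) (x i) ∈ K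

theorem dp_mem (K : Subfield ℂ) (d : ℕ) : (d : ℂ) + 1 ∈ K :=
  add_mem (natCast_mem K d) (one_mem K)

theorem sq_mem [DecidableEq ι] (h : IsEtf d x) (K : Subfield ℂ) (i j : ι) :
    inner ℂ (x i) (x j) * inner ℂ (x j) (x i) ∈ K := by
  rw [h.mul_inner]
  refine add_mem ?_ (div_mem (one_mem K) (dp_mem K d))
  split_ifs
  · exact div_mem (natCast_mem K d) (dp_mem K d)
  · exact zero_mem K

theorem diag_ne (h : IsEtf d x) {U : V ≃ₗᵢ[ℂ] V} {π : Equiv.Perm ι} (hU : Ind x U π) (i : ι) :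
    inner ℂ (x i) (U (x i)) ≠ 0 := by
  obtain ⟨a, ha⟩ := hU i
  have ha1 := ind_norm h ha
  rw [ha, inner_smul_right]
  refine mul_ne_zero ?_ (h.ne_zero _ _)
  rintro rfl
  simp at ha1

theorem ratio_mem [DecidableEq ι] (h : IsEtf d x) {K : Subfield ℂ} (hK : TripleIn x K)
    {U : V ≃ₗᵢ[ℂ] V} {π : Equiv.Perm ι} (hU : Ind x U π) (i j : ι) :
    inner ℂ (x j) (U (x j)) / inner ℂ (x i) (U (x i)) ∈ K := by
  obtain ⟨a, ha⟩ := hU i
  obtain ⟨b, hb⟩ := hU j
  have ha1 := ind_norm h ha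
  have ha0 : a ≠ 0 := by
    rintro rfl
    simp at ha1
  have haa : (starRingEnd ℂ) a * a = 1 := by
    rw [mul_comm, Complex.mul_conj, Complex.normSq_eq_norm_sq, ha1]
    simp
  have hab : (starRingEnd ℂ) a * b * inner ℂ (x (π i)) (x (π j)) = inner ℂ (x i) (x j) := by
    have h1 := U.inner_map_map (x i) (x j)
    rw [ha, hb, inner_smul_left, inner_smul_right] at h1
    linear_combination h1
  rw [ha, hb, inner_smul_right, inner_smul_right]
  have hkey : b * inner ℂ (x j) (x (π j)) / (a * inner ℂ (x i) (x (π i))) =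
      ((inner ℂ (x i) (x j) * inner ℂ (x j) (x (π j)) * inner ℂ (x (π j)) (x i)) *
        (inner ℂ (x i) (x (π j)) * inner ℂ (x (π j)) (x (π i)) * inner ℂ (x (π i)) (x i))) /
      ((inner ℂ (x i) (x (π j)) * inner ℂ (x (π j)) (x i)) *
        (inner ℂ (x (π i)) (x (π j)) * inner ℂ (x (π j)) (x (π i))) *
        (inner ℂ (x i) (x (π i)) * inner ℂ (x (π i)) (x i))) := by
    have n1 := h.ne_zero i (π j)
    have n2 := h.ne_zero (π j) i
    have n3 := h.ne_zero (π i) (π j)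
    have n4 := h.ne_zero (π j) (π i)
    have n5 := h.ne_zero i (π i)
    have n6 := h.ne_zero (π i) i
    rw [div_eq_div_iff (mul_ne_zero ha0 n5)
      (mul_ne_zero (mul_ne_zero (mul_ne_zero n1 n2) (mul_ne_zero n3 n4)) (mul_ne_zero n5 n6))]
    linear_combination (inner ℂ (x j) (x (π j)) * inner ℂ (x (π j)) (x i) *
      inner ℂ (x i) (x (π j)) * inner ℂ (x (π j)) (x (π i)) * inner ℂ (x (π i)) (x i) *
      a * inner ℂ (x i) (x (π i))) * hab - (b * inner ℂ (x j) (x (π j)) *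
      inner ℂ (x i) (x (π j)) * inner ℂ (x (π j)) (x i) * inner ℂ (x (π i)) (x (π j)) *
      inner ℂ (x (π j)) (x (π i)) * inner ℂ (x i) (x (π i)) * inner ℂ (x (π i)) (x i)) * haa
  rw [hkey]
  exact div_mem (mul_mem (hK _ _ _) (hK _ _ _))
    (mul_mem (mul_mem (sq_mem h K _ _) (sq_mem h K _ _)) (sq_mem h K _ _))

variable [FiniteDimensional ℂ V] [Fintype ι]

theorem expand (h : IsEtf d x) (hd : 1 ≤ d) (hcard : Fintype.card ι = d ^ 2)
    (hV : Module.finrank ℂ V = d) (X : V →ₗ[ℂ] V) (S : ℂ)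
    (hS : S = ∑ k, inner ℂ (x k) (X (x k))) :
    X = ∑ l, ((((d : ℂ) + 1) * inner ℂ (x l) (X (x l)) - S / (d : ℂ)) / (d : ℂ)) • pr (x l) := by
  classical
  have hd0 : (d : ℂ) ≠ 0 := by exact_mod_cast (by omega : d ≠ 0)
  have hd1 : (d : ℂ) + 1 ≠ 0 := by exact_mod_cast d.succ_ne_zero
  rw [← sub_eq_zero]
  apply h.op_zero hd hcard hV
  intro k
  rw [LinearMap.sub_apply, LinearMap.sum_apply, inner_sub_right, inner_sum]
  have h1 : ∀ l, inner ℂ (x k) ((((((d : ℂ) + 1) * inner ℂ (x l) (X (x l)) -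
      S / (d : ℂ)) / (d : ℂ)) • pr (x l)) (x k)) =
      (if k = l then inner ℂ (x l) (X (x l)) -
        S / ((d : ℂ) * ((d : ℂ) + 1)) else 0) +
      (inner ℂ (x l) (X (x l)) / (d : ℂ) - S / ((d : ℂ) ^ 2 * ((d : ℂ) + 1))) := by
    intro l
    rw [LinearMap.smul_apply, pr_apply, inner_smul_right, inner_smul_right, mul_comm
      (inner ℂ (x l) (x k)), h.mul_inner]
    split_ifs
    · field_simp
    · field_simp
      ring
  rw [sum_congr rfl (fun l _ => h1 l), sum_add_distrib, sum_ite_eq, if_pos (mem_univ _),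
    sum_sub_distrib, sum_const, card_univ, hcard, nsmul_eq_mul, ← sum_div, ← hS]
  push_cast
  field_simp
  ring

/-- operators with diagonal in `K` -/
def Rational (x : ι → V) (K : Subfield ℂ) (X : V →ₗ[ℂ] V) : Prop :=
  ∀ l, inner ℂ (x l) (X (x l)) ∈ K

theorem Rational.mul (h : IsEtf d x) (hd : 1 ≤ d) (hcard : Fintype.card ι = d ^ 2)
    (hV : Module.finrank ℂ V = d) {K : Subfield ℂ} (hK : TripleIn x K) {X Y : V →ₗ[ℂ] V}
    (hX : Rational x K X) (hY : Rational x K Y) : Rational x K (X * Y) := by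
  have key : ∀ Z : V →ₗ[ℂ] V, Rational x K Z → ∃ c : ι → ℂ, (∀ i, c i ∈ K) ∧
      Z = ∑ l, c l • pr (x l) := by
    intro Z hZ
    refine ⟨_, fun i => ?_, expand h hd hcard hV Z _ rfl⟩
    exact div_mem (sub_mem (mul_mem (dp_mem K d) (hZ i))
      (div_mem (sum_mem fun k _ => hZ k) (natCast_mem K d))) (natCast_mem K d)
  obtain ⟨c, hc, hcX⟩ := key X hX
  obtain ⟨e, he, heY⟩ := key Y hY
  intro l
  have h1 : inner ℂ (x l) ((X * Y : V →ₗ[ℂ] V) (x l)) =
      ∑ i, ∑ j, c i * e j *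
        (inner ℂ (x l) (x i) * inner ℂ (x i) (x j) * inner ℂ (x j) (x l)) := by
    have h2 : Y (x l) = ∑ j, (e j * inner ℂ (x j) (x l)) • x j := by
      rw [heY, LinearMap.sum_apply]
      apply sum_congr rfl
      intro j _
      rw [LinearMap.smul_apply, pr_apply, smul_smul]
    have h3 : ∀ v, inner ℂ (x l) (X v) = ∑ i, c i * (inner ℂ (x l) (x i) * inner ℂ (x i) v) := by
      intro v
      rw [hcX, LinearMap.sum_apply, inner_sum]
      apply sum_congr rfl
      intro i _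
      rw [LinearMap.smul_apply, pr_apply, inner_smul_right, inner_smul_right]
      ring
    rw [Module.End.mul_apply, h3]
    apply sum_congr rfl
    intro i _
    rw [h2, inner_sum, mul_sum, mul_sum]
    apply sum_congr rfl
    intro j _
    rw [inner_smul_right]
    ring
  rw [h1]
  exact sum_mem fun i _ => sum_mem fun j _ => mul_mem (mul_mem (hc i) (he j)) (hK _ _ _)

/-- the commutator scalars lie in the field of the triple products -/
theorem comm_mem [Nonempty ι] (h : IsEtf d x) (hd : 1 ≤ d) (hcard : Fintype.card ι = d ^ 2)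
    (hV : Module.finrank ℂ V = d) {K : Subfield ℂ} (hK : TripleIn x K)
    {U W : V ≃ₗᵢ[ℂ] V} {π σ : Equiv.Perm ι} (hU : Ind x U π) (hW : Ind x W σ) {ζ : ℂ}
    (hζ : ∀ v, U (W v) = ζ • W (U v)) : ζ ∈ K := by
  classical
  obtain ⟨i₀⟩ := ‹Nonempty ι›
  set a := inner ℂ (x i₀) (U (x i₀)) with ha
  set b := inner ℂ (x i₀) (W (x i₀)) with hb
  have ha0 : a ≠ 0 := diag_ne h hU i₀
  have hb0 : b ≠ 0 := diag_ne h hW i₀
  set X : V →ₗ[ℂ] V := a⁻¹ • (U.toLinearEquiv : V →ₗ[ℂ] V) with hX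
  set Y : V →ₗ[ℂ] V := b⁻¹ • (W.toLinearEquiv : V →ₗ[ℂ] V) with hY
  have hXa : ∀ v, X v = a⁻¹ • U v := fun v => rfl
  have hYa : ∀ v, Y v = b⁻¹ • W v := fun v => rfl
  have hXr : Rational x K X := by
    intro l
    rw [hXa, inner_smul_right, mul_comm, ← div_eq_mul_inv]
    exact ratio_mem h hK hU i₀ l
  have hYr : Rational x K Y := by
    intro l
    rw [hYa, inner_smul_right, mul_comm, ← div_eq_mul_inv]
    exact ratio_mem h hK hW i₀ l
  have hXY := hXr.mul h hd hcard hV hK hYr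
  have hYX := hYr.mul h hd hcard hV hK hXr
  have hcom : ∀ v, (X * Y : V →ₗ[ℂ] V) v = ζ • (Y * X : V →ₗ[ℂ] V) v := by
    intro v
    rw [Module.End.mul_apply, Module.End.mul_apply, hXa, hYa, hYa, hXa, map_smul, map_smul, hζ]
    rw [smul_smul, smul_smul, smul_smul, smul_smul]
    congr 1
    ring
  have hne : (Y * X : V →ₗ[ℂ] V) ≠ 0 := by
    intro h0
    have h1 := LinearMap.congr_fun h0 (x i₀)
    rw [Module.End.mul_apply, hXa, hYa, map_smul, LinearMap.zero_apply, smul_smul] at h1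
    have h2 := congrArg norm h1
    rw [norm_smul, W.norm_map, U.norm_map, h.nrm, mul_one, norm_zero, norm_eq_zero] at h2
    exact mul_ne_zero (inv_ne_zero hb0) (inv_ne_zero ha0) h2
  obtain ⟨l, hl⟩ : ∃ l, inner ℂ (x l) ((Y * X : V →ₗ[ℂ] V) (x l)) ≠ 0 := by
    by_contra hcon
    push Not at hcon
    exact hne (h.op_zero hd hcard hV _ hcon)
  have h1 : ζ = inner ℂ (x l) ((X * Y : V →ₗ[ℂ] V) (x l)) /
      inner ℂ (x l) ((Y * X : V →ₗ[ℂ] V) (x l)) := by
    rw [hcom, inner_smul_right]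
    field_simp
  rw [h1]
  exact div_mem (hXY l) (hYX l)

/-- the powers of the diagonal entries of a symmetry of finite order -/
theorem pow_mem_of (h : IsEtf d x) (hd : 1 ≤ d) (hcard : Fintype.card ι = d ^ 2)
    (hV : Module.finrank ℂ V = d) {K : Subfield ℂ} (hK : TripleIn x K)
    {U : V ≃ₗᵢ[ℂ] V} {π : Equiv.Perm ι} (hU : Ind x U π) {m : ℕ} (hm : U ^ m = 1) (i₀ : ι) :
    inner ℂ (x i₀) (U (x i₀)) ^ m ∈ K := by
  classical
  set a := inner ℂ (x i₀) (U (x i₀)) with ha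
  have ha0 : a ≠ 0 := diag_ne h hU i₀
  set X : V →ₗ[ℂ] V := a⁻¹ • (U.toLinearEquiv : V →ₗ[ℂ] V) with hX
  have hXa : ∀ v, X v = a⁻¹ • U v := fun v => rfl
  have hXr : Rational x K X := by
    intro l
    rw [hXa, inner_smul_right, mul_comm, ← div_eq_mul_inv]
    exact ratio_mem h hK hU i₀ l
  have hpow : ∀ n : ℕ, Rational x K (X ^ n) := by
    intro n
    induction n with
    | zero =>
      intro l
      rw [pow_zero, Module.End.one_apply, h.inner_self]
      exact one_mem K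
    | succ n ih =>
      rw [pow_succ]
      exact ih.mul h hd hcard hV hK hXr
  have hform : ∀ n : ℕ, ∀ v, (X ^ n) v = (a⁻¹) ^ n • (U ^ n) v := by
    intro n
    induction n with
    | zero => intro v; simp
    | succ n ih =>
      intro v
      rw [pow_succ, Module.End.mul_apply, ih, hXa, map_smul, smul_smul, pow_succ, pow_succ]
      rfl
  have h1 := hpow m i₀
  rw [hform, hm] at h1
  change inner ℂ (x i₀) ((a⁻¹) ^ m • x i₀) ∈ K at h1
  rw [inner_smul_right, h.inner_self, mul_one, inv_pow] at h1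
  have h2 := inv_mem h1
  rwa [inv_inv] at h2

end Pool.Agent.Y387.RU
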